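import Pool.Agent.Helper29_TDG.Stmts
import Pool.Agent.Helper53_TDG.Comp

set_option autoImplicit false

namespace Pool.Agent.TDG.H20

open Finset Helper77.TDG Pool.Agent.TDG

/-- Removing targets. -/
theorem mo (hEL : ELStmt) : MOStmt := by
  intro V X _ _ _ N Hv U Z hW hZ
  classical
  obtain ⟨T, hT, hmax⟩ := exists_max_image (((U \ Hv).powerset).filter fun T => Z ⊆ T)
    (fun T => sf N Hv U T) ⟨Z, by simp [hZ]⟩
  rw [mem_filter, mem_powerset] at hT
  obtain ⟨R, hR, hRG⟩ := exists_Gam (N := N) (Hv := Hv) (U := U)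
  obtain ⟨R', T', h1, h2, h3, _, _, h6⟩ := hEL V X N Hv U R T hW hR hT.1
  have h7 := MM_sdiff_le (N := N) hZ h2 (hT.2.trans h1) (S := T) (by
    intro T₁ hT₁ hZT₁
    exact hmax T₁ (by rw [mem_filter, mem_powerset]; exact ⟨hT₁, hZT₁⟩))
  have h8 : sf N Hv U T' ≤ F2 N Hv U := sf_le_F2 (h3.trans hT.1)
  have h9 : (0 : ℤ) ≤ ((hitc N Hv U R T T').card : ℤ) := by positivity
  unfold MM at h7 ⊢
  rw [hRG] at h6
  linarith

/-- the value of a single heavy target -/
theorem MM_heavy {V X : Type} [Fintype V] [DecidableEq V] [DecidableEq X] (N : V → Finset X)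
    (Hv : Finset X) (hW : World N Hv) (z : X) (hz : z ∈ Hv) : MM N Hv {z} = 2 := by
  have h0 : ({z} : Finset X) \ Hv = ∅ := by
    ext x
    simp only [mem_sdiff, mem_singleton, notMem_empty, iff_false, not_and, not_not]
    rintro rfl
    exact hz
  have hconn : Conn N ({z} : Finset X) := by
    refine ⟨singleton_nonempty z, fun D hD hDc => ?_⟩
    have := hDc.1
    rw [subset_singleton_iff] at this
    rcases this with h | h
    · rw [h] at hD
      simp at hD
    · exact h
  have hnb : ¬ Bad N Hv {z} := by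
    rintro ⟨-, ⟨h2, -⟩, -⟩
    rw [disjoint_singleton_left] at h2
    exact h2 hz
  have hPhi : Phi N Hv {z} = 3 := by
    unfold Phi
    have h1 : ({z} : Finset X) ∩ Hv = {z} := by
      rw [inter_eq_left, singleton_subset_iff]
      exact hz
    have h2 : alive N ({z} : Finset X) = univ.filter fun v => z ∈ N v := by
      ext v
      rw [mem_alive, mem_filter]
      constructor
      · rintro ⟨x, hx⟩
        rw [mem_inter, mem_singleton] at hx
        rw [← hx.2]
        exact ⟨mem_univ _, hx.1⟩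
      · rintro ⟨-, h⟩
        exact ⟨z, mem_inter.2 ⟨h, mem_singleton_self z⟩⟩
    rw [h1, h2, hW.one z hz, card_singleton]
  have hF : F2 N Hv {z} = sf N Hv {z} ∅ := by
    obtain ⟨R, hR, hR'⟩ := exists_F2 (N := N) (Hv := Hv) (U := {z})
    rw [h0, subset_empty] at hR
    rw [← hR', hR]
  have hG : Gam N Hv {z} = GG N Hv {z} ∅ := by
    obtain ⟨R, hR, hR'⟩ := exists_Gam (N := N) (Hv := Hv) (U := {z})
    rw [h0, subset_empty] at hR
    rw [← hR', hR]
  unfold MM
  rw [hF, hG]
  unfold sf ph GG bc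
  rw [J_empty, sdiff_empty, hconn.comps]
  simp only [card_empty, Nat.cast_zero, mul_zero, sub_zero, neg_zero, zero_add, sum_singleton]
  rw [filter_singleton, if_neg hnb]
  unfold gv
  rw [if_neg hnb, hPhi]
  simp

/-- Every move lowers the potential. -/
theorem sc (hMO : MOStmt) (hAD : ADStmt) : SCStmt := by
  intro V X _ _ _ N Hv U v hW hv
  by_cases hl : ((N v ∩ U) ∩ Hv).Nonempty
  · obtain ⟨z, hz⟩ := hl
    rw [mem_inter, mem_inter] at hz
    have huniq : ∀ y ∈ N v ∩ Hv, y = z := by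
      intro y hy
      have h1 := hW.heavy v
      rw [card_le_one] at h1
      exact h1 y hy z (mem_inter.2 ⟨hz.1.1, hz.2⟩)
    obtain ⟨Z, hZ⟩ : ∃ Z, Z = (N v ∩ U) \ Hv := ⟨_, rfl⟩
    have hZU : Z ⊆ U \ Hv := by
      rw [hZ]
      exact sdiff_subset_sdiff inter_subset_right (Subset.refl _)
    have h1 := hMO V X N Hv U Z hW hZU
    have hcl : Closed N (U \ Z) {z} := by
      refine ⟨?_, ?_⟩
      · rw [singleton_subset_iff, mem_sdiff, hZ, mem_sdiff]
        exact ⟨hz.1.2, fun h => h.2 hz.2⟩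
      · intro u hu
        have hzu : z ∈ N u := by
          obtain ⟨x, hx⟩ := hu
          rw [mem_inter, mem_singleton] at hx
          rw [← hx.2]
          exact hx.1
        have huv : u = v := by
          have h2 := (hW.one z hz.2).le
          rw [card_le_one] at h2
          exact h2 u (by simp [hzu]) v (by simp [hz.1.1])
        rw [huv]
        intro x hx
        rw [mem_inter, mem_sdiff, hZ, mem_sdiff, mem_inter] at hx
        rw [mem_singleton]
        apply huniq
        rw [mem_inter]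
        refine ⟨hx.1, ?_⟩
        by_contra hxH
        exact hx.2.2 ⟨⟨hx.1, hx.2.1⟩, hxH⟩
    have h2 := hAD V X N Hv (U \ Z) {z} hW hcl
    have h3 : (U \ Z) \ {z} = U \ N v := by
      ext x
      rw [mem_sdiff, mem_sdiff, mem_sdiff, hZ, mem_sdiff, mem_inter, mem_singleton]
      constructor
      · rintro ⟨⟨h4, h5⟩, h6⟩
        refine ⟨h4, fun h7 => ?_⟩
        by_cases h8 : x ∈ Hv
        · exact h6 (huniq x (mem_inter.2 ⟨h7, h8⟩))
        · exact h5 ⟨⟨h7, h4⟩, h8⟩
      · rintro ⟨h4, h5⟩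
        refine ⟨⟨h4, fun h6 => h5 h6.1.1⟩, fun h6 => h5 ?_⟩
        rw [h6]
        exact hz.1.1
    rw [h3, MM_heavy N Hv hW z hz.2] at h2
    have h4 : (0 : ℤ) ≤ ((J N U Z).card : ℤ) := by positivity
    linarith
  · rw [not_nonempty_iff_eq_empty] at hl
    have hZU : N v ∩ U ⊆ U \ Hv := by
      intro x hx
      rw [mem_sdiff]
      refine ⟨(mem_inter.1 hx).2, fun h => ?_⟩
      have : x ∈ (N v ∩ U) ∩ Hv := mem_inter.2 ⟨hx, h⟩
      rw [hl] at this
      simp at this
    have h1 := hMO V X N Hv U (N v ∩ U) hW hZU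
    have h2 : U \ (N v ∩ U) = U \ N v := by
      ext x
      simp only [mem_sdiff, mem_inter]
      tauto
    rw [h2] at h1
    have h3 : v ∈ J N U (N v ∩ U) := mem_J.2 ⟨hv, Subset.refl _⟩
    have h4 : 1 ≤ (J N U (N v ∩ U)).card := card_pos.2 ⟨v, h3⟩
    have h5 : (1 : ℤ) ≤ ((J N U (N v ∩ U)).card : ℤ) := by exact_mod_cast h4
    linarith

end Pool.Agent.TDG.H20
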